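import Pool.Agent.K1H58.KR.Geo

/-!
# Fox and Geese: bit tables

Coordinates of a table: square of the fox (`b1 < 32`), columns of the four geese (`b2`, `r1`, `r2`,
`k1 < 4`) on given ranks, node of the second component (`k2 < 4`).
-/

set_option autoImplicit false

namespace K1H58.FG

open K1H58.KR

def g : Geo := ⟨32, 4, 4, 4⟩

/-- the fox is on the square `s` -/
def fx (s : ℕ) : ℕ := sl (axb1 g) (fun b => Nat.beq b s)

/-- the goose is in column `k` -/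
def cl (y : Axis g) (k : ℕ) : ℕ := sl y (fun c => Nat.beq c k)

def odd (r : ℕ) : Bool := Nat.beq (r % 2) 1

/-- the fox is not on the square of the goose -/
def nF (y : Axis g) (r : ℕ) : ℕ :=
  cmp g ((cl y 0 &&& fx (4 * r)) ||| (cl y 1 &&& fx (4 * r + 1)) ||| (cl y 2 &&& fx (4 * r + 2)) |||
    (cl y 3 &&& fx (4 * r + 3)))

/-- target column -/
def tg (o s : Bool) (k : ℕ) : ℕ := cond s (cond o (k + 1) (k - 1)) k

def okc (o s : Bool) (k : ℕ) : Bool := cond s (cond o (Nat.blt (k + 1) 4) (Nat.ble 1 k)) true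

def cf1 (y : Axis g) (r : ℕ) (s : Bool) (k : ℕ) : ℕ :=
  cond (okc (odd r) s k) (cl y k &&& cmp g (fx (4 * (r + 1) + tg (odd r) s k))) 0

/-- the target of the goose move is on the board and the fox is not there -/
def canF (y : Axis g) (r : ℕ) (s : Bool) : ℕ := cf1 y r s 0 ||| cf1 y r s 1 ||| cf1 y r s 2 ||| cf1 y r s 3

/-- the goose `z` is not in the target column of the goose `y` -/
def canG (y z : Axis g) (o s : Bool) : ℕ :=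
  cmp g ((cl y 0 &&& cl z (tg o s 0)) ||| (cl y 1 &&& cl z (tg o s 1)) ||| (cl y 2 &&& cl z (tg o s 2)) |||
    (cl y 3 &&& cl z (tg o s 3)))

def gz (y z : Axis g) (r q : ℕ) (s : Bool) : ℕ := cond (Nat.beq q (r + 1)) (canG y z (odd r) s) (full g)

def canA (y z1 z2 z3 : Axis g) (r q1 q2 q3 : ℕ) (s : Bool) : ℕ :=
  canF y r s &&& gz y z1 r q1 s &&& gz y z2 r q2 s &&& gz y z3 r q3 s

def pre (y : Axis g) (o : Bool) (X : ℕ) : ℕ := cond o (upt y 1 X) (dnt y 1 X)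

/-- the goose has a move to `X` -/
def exG (y z1 z2 z3 : Axis g) (r q1 q2 q3 : ℕ) (X : ℕ) : ℕ :=
  cond (Nat.blt r 7) ((canA y z1 z2 z3 r q1 q2 q3 false &&& X) |||
    (canA y z1 z2 z3 r q1 q2 q3 true &&& pre y (odd r) X)) 0

/-- the goose has a move to a point outside `X` -/
def vioG (y z1 z2 z3 : Axis g) (r q1 q2 q3 : ℕ) (X : ℕ) : ℕ :=
  cond (Nat.blt r 7) ((canA y z1 z2 z3 r q1 q2 q3 false &&& cmp g X) |||
    (canA y z1 z2 z3 r q1 q2 q3 true &&& cmp g (pre y (odd r) X))) 0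

def evE1 : ℕ := sl (axb1 g) (fun b => Nat.beq (b / 4 % 2) 0 && Nat.ble 1 (b % 4))
def odO2 : ℕ := sl (axb1 g) (fun b => Nat.beq (b / 4 % 2) 1 && Nat.ble (b % 4) 2)

/-- the fox has a king-like diagonal step into `X` -/
def foxN (X : ℕ) : ℕ :=
  upt (axb1 g) 4 X ||| dnt (axb1 g) 4 X ||| (evE1 &&& (upt (axb1 g) 3 X ||| dnt (axb1 g) 5 X)) |||
    (odO2 &&& (upt (axb1 g) 5 X ||| dnt (axb1 g) 3 X))

def H0 : ℕ := sl (axk2 g) (fun h => Nat.beq h 0)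
def Hp : ℕ := sl (axk2 g) (fun h => Nat.ble 1 h)
def H3 : ℕ := sl (axk2 g) (fun h => Nat.beq h 3)

def vF (r1 r2 r3 r4 : ℕ) : ℕ := nF (axb2 g) r1 &&& nF (axr1 g) r2 &&& nF (axr2 g) r3 &&& nF (axk1 g) r4

/-- fixed point of `X ↦ D ∪ (B ∩ foxN X)`, or `fb` -/
def itr (fb B D : ℕ) : ℕ → ℕ → ℕ
  | 0, _ => fb
  | n + 1, X => (fun X' => cond (Nat.beq X' X) X (itr fb B D n X')) (D ||| (B &&& foxN X))

/-! ### Right (the fox) survives -/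

def tOf (S : ℕ) : ℕ := foxN S ||| upt (axk2 g) 1 S

def sFin (Y : ℕ) : ℕ :=
  (fun Yp Y0 => Yp ||| (fun D => itr D Y0 D 40 Y0) (Y0 &&& upt (axk2 g) 1 Yp)) (Y &&& Hp) (Y &&& H0)

def sOf (r1 r2 r3 r4 T1 T2 T3 T4 : ℕ) : ℕ :=
  sFin (vF r1 r2 r3 r4 &&& cmp g (
    vioG (axb2 g) (axr1 g) (axr2 g) (axk1 g) r1 r2 r3 r4 T1 |||
    vioG (axr1 g) (axb2 g) (axr2 g) (axk1 g) r2 r1 r3 r4 T2 |||
    vioG (axr2 g) (axb2 g) (axr1 g) (axk1 g) r3 r1 r2 r4 T3 |||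
    vioG (axk1 g) (axb2 g) (axr1 g) (axr2 g) r4 r1 r2 r3 T4))

def SS : ℕ → ℕ → ℕ → ℕ → ℕ → ℕ
  | 0 => fun _ _ _ _ => 0
  | n + 1 => fun r1 r2 r3 r4 => sOf r1 r2 r3 r4 (tOf (SS n (r1 + 1) r2 r3 r4))
      (tOf (SS n r1 (r2 + 1) r3 r4)) (tOf (SS n r1 r2 (r3 + 1) r4)) (tOf (SS n r1 r2 r3 (r4 + 1)))

/-! ### Left (the geese) survives -/

def uOf (v W : ℕ) : ℕ := cmp g (foxN (v &&& cmp g W)) &&& (H3 ||| upt (axk2 g) 1 W)

def wFin (v E : ℕ) : ℕ :=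
  (fun V0 => (E &&& Hp) ||| (V0 &&& cmp g ((fun B => itr B B (B &&& cmp g (upt (axk2 g) 1 E)) 40 0)
    (V0 &&& cmp g E)))) (v &&& H0)

def wOf (r1 r2 r3 r4 U1 U2 U3 U4 : ℕ) : ℕ :=
  wFin (vF r1 r2 r3 r4) (
    exG (axb2 g) (axr1 g) (axr2 g) (axk1 g) r1 r2 r3 r4 U1 |||
    exG (axr1 g) (axb2 g) (axr2 g) (axk1 g) r2 r1 r3 r4 U2 |||
    exG (axr2 g) (axb2 g) (axr1 g) (axk1 g) r3 r1 r2 r4 U3 |||
    exG (axk1 g) (axb2 g) (axr1 g) (axr2 g) r4 r1 r2 r3 U4)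

def WW : ℕ → ℕ → ℕ → ℕ → ℕ → ℕ
  | 0 => fun _ _ _ _ => 0
  | n + 1 => fun r1 r2 r3 r4 => wOf r1 r2 r3 r4
      (uOf (vF (r1 + 1) r2 r3 r4) (WW n (r1 + 1) r2 r3 r4))
      (uOf (vF r1 (r2 + 1) r3 r4) (WW n r1 (r2 + 1) r3 r4))
      (uOf (vF r1 r2 (r3 + 1) r4) (WW n r1 r2 (r3 + 1) r4))
      (uOf (vF r1 r2 r3 (r4 + 1)) (WW n r1 r2 r3 (r4 + 1)))

/-- fox on d8 = square 29, geese on a1, c1, e1, g1 -/
def st : Co := ⟨29, 0, 1, 2, 3, 0⟩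

end K1H58.FG
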