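import Pool.Agent.K1H58.FG.Loopy

/-!
# Fox and Geese
-/

set_option autoImplicit false

namespace K1H58.FG

/-- The square `(file, rank)` is on the `8 × 8` board. -/
def OnBoard (s : ℕ × ℕ) : Prop := 1 ≤ s.1 ∧ s.1 ≤ 8 ∧ 1 ≤ s.2 ∧ s.2 ≤ 8

/-- `t` is one square diagonally forward (toward rank 8) from `s`. -/
def Forward (s t : ℕ × ℕ) : Prop := t.2 = s.2 + 1 ∧ (t.1 = s.1 + 1 ∨ s.1 = t.1 + 1)

/-- The squares of the four geese and of the fox. -/
structure FGPos where
  goose : Fin 4 → ℕ × ℕ
  fox : ℕ × ℕ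

/-- There is no piece on the square. -/
def FGPos.Empty (p : FGPos) (t : ℕ × ℕ) : Prop := t ≠ p.fox ∧ ∀ i, t ≠ p.goose i

/-- Fox and Geese: Left moves one goose one square diagonally forward to an empty square, Right
moves the fox one square diagonally in any direction to an empty square. Geese on a1, c1, e1, g1,
fox on d8. -/
def foxAndGeese : LG where
  V := FGPos
  L p q := ∃ i, OnBoard (q.goose i) ∧ Forward (p.goose i) (q.goose i) ∧ p.Empty (q.goose i) ∧
    (∀ j, j ≠ i → q.goose j = p.goose j) ∧ q.fox = p.fox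
  R p q := OnBoard q.fox ∧ (Forward p.fox q.fox ∨ Forward q.fox p.fox) ∧ p.Empty q.fox ∧
    q.goose = p.goose
  start := ⟨![(1, 1), (3, 1), (5, 1), (7, 1)], (4, 8)⟩

/-- The stopper `G = {2 | G}`. Its positions are `G = 0`, `2 = 1`, `1 = 2`, `0 = 3` (numbers of the
positions on the right): Left moves from `G` to `2 = {1 | }`, from there to `1 = {0 | }` and to
`0 = { | }`; Right moves from `G` to `G`. -/
def twoOver : LG where
  V := Fin 4
  L v w := w.val = v.val + 1
  R v w := v = 0 ∧ w = 0
  start := 0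

/-- The integer `2 = {1 | }`; the position `k` is the integer `k`. -/
def two : LG where
  V := Fin 3
  L v w := v.val = w.val + 1
  R _ _ := False
  start := 2

/-- `1 / on = over = {0 | over}`; the position `true` is `over`, the position `false` is `0`. -/
def overOn : LG where
  V := Bool
  L v w := v = true ∧ w = false
  R v w := v = true ∧ w = true
  start := true

/-- a function which decreases along alternating play -/
theorem stopper_of {G : LG} (μ : Bool × G.V → ℕ) (h : ∀ q p, G.Alt q p → μ q < μ p) :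
    G.IsStopper :=
  Subrelation.wf (h _ _) (InvImage.wf μ Nat.lt_wfRel.wf)

theorem fg_stopper : foxAndGeese.IsStopper := by
  refine stopper_of (fun p => 2 * ∑ i, (8 - (p.2.goose i).2) + (if p.1 then 0 else 1)) ?_
  rintro ⟨t, q⟩ ⟨t', p⟩ (⟨h1, h2, i, h3, h4, h5, h6, h7⟩ | ⟨h1, h2, h3, h4, h5, h6⟩)
  · dsimp only at h1 h2 h3 h4 h5 h6 h7 ⊢
    subst h1 h2
    have h8 : ∑ i, (8 - (q.goose i).2) < ∑ i, (8 - (p.goose i).2) := by
      apply Finset.sum_lt_sum
      · intro j _
        by_cases hj : j = i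
        · subst hj
          have := h4.1
          omega
        · rw [h6 j hj]
      · refine ⟨i, Finset.mem_univ _, ?_⟩
        have := h4.1
        have := h3.2.2.2
        omega
    simp only [Bool.false_eq_true, if_false, if_true]
    omega
  · dsimp only at h1 h2 h3 h4 h5 h6 ⊢
    subst h1 h2
    rw [h6]
    simp

theorem twoOver_stopper : twoOver.IsStopper := by
  refine stopper_of (fun p => 2 * (4 - (p.2 : Fin 4).val) + (if p.1 then 0 else 1)) ?_
  rintro ⟨t, q⟩ ⟨t', p⟩ (⟨h1, h2, h3⟩ | ⟨h1, h2, h3, h4⟩)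
  · dsimp only at h1 h2 h3 ⊢
    subst h1 h2
    have h5 : (q : Fin 4).val = (p : Fin 4).val + 1 := h3
    have h6 : (q : Fin 4).val < 4 := (q : Fin 4).isLt
    simp only [Bool.false_eq_true, if_false, if_true]
    omega
  · dsimp only at h1 h2 h3 h4 ⊢
    subst h1 h2
    have h5 : (q : Fin 4) = (p : Fin 4) := h4.trans h3.symm
    rw [h5]
    simp

theorem sum_stopper : (two.add overOn).IsStopper := by
  refine stopper_of (fun p => 2 * (Fin.val (n := 3) p.2.1 + Bool.toNat p.2.2) + Bool.toNat (!p.1)) ?_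
  rintro ⟨t, ⟨q, q'⟩⟩ ⟨t', ⟨p, p'⟩⟩ (⟨h1, h2, h3⟩ | ⟨h1, h2, h3⟩)
  · dsimp only at h1 h2 ⊢
    subst h1 h2
    rcases h3 with ⟨h3, h4⟩ | ⟨h3, h4⟩
    · have h5 : (p : Fin 3).val = (q : Fin 3).val + 1 := h3
      have h6 : (q' : Bool) = p' := h4
      subst h6
      simp only [Bool.not_false, Bool.not_true, Bool.toNat_true, Bool.toNat_false]
      omega
    · have h5 : (p' : Bool) = true ∧ (q' : Bool) = false := h3
      have h6 : (q : Fin 3) = p := h4
      obtain ⟨h5, h7⟩ := h5
      subst h6 h5 h7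
      simp only [Bool.not_false, Bool.not_true, Bool.toNat_true, Bool.toNat_false]
      omega
  · dsimp only at h1 h2 ⊢
    subst h1 h2
    rcases h3 with ⟨h3, h4⟩ | ⟨h3, h4⟩
    · exact (h3 : False).elim
    · have h5 : (p' : Bool) = true ∧ (q' : Bool) = true := h3
      have h6 : (q : Fin 3) = p := h4
      obtain ⟨h5, h7⟩ := h5
      subst h6 h5 h7
      simp only [Bool.not_false, Bool.not_true, Bool.toNat_true, Bool.toNat_false]
      omega

end K1H58.FG
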