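import Mathlib

/-!
# Loopy partizan games: sums, survival, stoppers and equality
-/

set_option autoImplicit false

namespace K1H58.FG

/-- A (possibly loopy) partizan game: positions, the moves of Left and of Right, and the starting
position. Normal play: a player who has no move loses; infinite play is a draw. -/
structure LG where
  V : Type
  L : V → V → Prop
  R : V → V → Prop
  start : V

/-- The disjunctive sum. -/
def LG.add (G H : LG) : LG where
  V := G.V × H.V
  L p q := (G.L p.1 q.1 ∧ q.2 = p.2) ∨ (H.L p.2 q.2 ∧ q.1 = p.1)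
  R p q := (G.R p.1 q.1 ∧ q.2 = p.2) ∨ (H.R p.2 q.2 ∧ q.1 = p.1)
  start := (G.start, H.start)

/-- The negative: the players change places. -/
def LG.neg (G : LG) : LG where
  V := G.V
  L := G.R
  R := G.L
  start := G.start

/-- Left can play from `v` so that she never gets stuck on her turn (she wins or the play is
infinite); `t = true`: it is her turn, `t = false`: it is the turn of Right. -/
def LG.LeftSurvivesAt (G : LG) (t : Bool) (v : G.V) : Prop :=
  ∃ P : Bool → G.V → Prop, (∀ v, P true v → ∃ w, G.L v w ∧ P false w) ∧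
    (∀ v, P false v → ∀ w, G.R v w → P true w) ∧ P t v

/-- Left survives; `t = true`: she moves first, `t = false`: she moves second. -/
def LG.LeftSurvives (G : LG) (t : Bool) : Prop := G.LeftSurvivesAt t G.start

/-- Right survives; `t = true`: he moves first, `t = false`: he moves second. -/
def LG.RightSurvives (G : LG) (t : Bool) : Prop := G.neg.LeftSurvives t

/-- The same outcome for both players and both orders of play (a player wins iff the other one
does not survive). -/
def SameOutcome (G H : LG) : Prop :=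
  ∀ t, (G.LeftSurvives t ↔ H.LeftSurvives t) ∧ (G.RightSurvives t ↔ H.RightSurvives t)

/-- Equality of loopy games: the same outcome in every sum. -/
def Equal (G H : LG) : Prop := ∀ X : LG, SameOutcome (G.add X) (H.add X)

/-- One move of alternating play, from the second pair to the first. -/
def LG.Alt (G : LG) (q p : Bool × G.V) : Prop :=
  (p.1 = true ∧ q.1 = false ∧ G.L p.2 q.2) ∨ (p.1 = false ∧ q.1 = true ∧ G.R p.2 q.2)

/-- No position admits an infinite alternating play. -/
def LG.IsStopper (G : LG) : Prop := WellFounded G.Alt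

section
variable {G H X : LG}

theorem surv_true {v : G.V} (h : G.LeftSurvivesAt true v) :
    ∃ w, G.L v w ∧ G.LeftSurvivesAt false w := by
  obtain ⟨P, h1, h2, h3⟩ := h
  obtain ⟨w, h4, h5⟩ := h1 v h3
  exact ⟨w, h4, P, h1, h2, h5⟩

theorem surv_false {v : G.V} (h : G.LeftSurvivesAt false v) {w : G.V} (hw : G.R v w) :
    G.LeftSurvivesAt true w := by
  obtain ⟨P, h1, h2, h3⟩ := h
  exact ⟨P, h1, h2, h2 v h3 w hw⟩

/-- The pending replies of Left: she has to answer in `G - H` or in `H + X`. -/
theorem reply (hH : H.IsStopper) : ∀ (p : Bool × H.V) (gx : G.V × X.V),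
    (p.1 = false → (G.add H.neg).LeftSurvivesAt true (gx.1, p.2) →
      (H.add X).LeftSurvivesAt false (p.2, gx.2) →
      ∃ w, (G.add X).L gx w ∧ ∃ h, (G.add H.neg).LeftSurvivesAt false (w.1, h) ∧
        (H.add X).LeftSurvivesAt false (h, w.2)) ∧
    (p.1 = true → (G.add H.neg).LeftSurvivesAt false (gx.1, p.2) →
      (H.add X).LeftSurvivesAt true (p.2, gx.2) →
      ∃ w, (G.add X).L gx w ∧ ∃ h, (G.add H.neg).LeftSurvivesAt false (w.1, h) ∧
        (H.add X).LeftSurvivesAt false (h, w.2)) := by
  intro p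
  induction p using hH.induction with
  | _ p ih =>
    obtain ⟨t, h⟩ := p
    intro gx
    obtain ⟨g, x⟩ := gx
    refine ⟨fun ht hA hB => ?_, fun ht hA hB => ?_⟩
    · dsimp only at ht hA hB
      subst ht
      obtain ⟨w, h1, h2⟩ := surv_true hA
      obtain ⟨g', h'⟩ := w
      rcases h1 with ⟨h1, h3⟩ | ⟨h1, h3⟩
      · dsimp only at h1 h3
        subst h3
        exact ⟨(g', x), Or.inl ⟨h1, rfl⟩, h', h2, hB⟩
      · dsimp only at h1 h3
        subst h3
        have h4 : (H.add X).R (h, x) (h', x) := Or.inl ⟨h1, rfl⟩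
        exact (ih (true, h') (Or.inr ⟨rfl, rfl, h1⟩) (g', x)).2 rfl h2 (surv_false hB h4)
    · dsimp only at ht hA hB
      subst ht
      obtain ⟨w, h1, h2⟩ := surv_true hB
      obtain ⟨h', x'⟩ := w
      rcases h1 with ⟨h1, h3⟩ | ⟨h1, h3⟩
      · dsimp only at h1 h3
        subst h3
        have h4 : (G.add H.neg).R (g, h) (g, h') := Or.inr ⟨h1, rfl⟩
        exact (ih (false, h') (Or.inl ⟨rfl, rfl, h1⟩) (g, x')).1 rfl (surv_false hA h4) h2
      · dsimp only at h1 h3
        subst h3
        exact ⟨(g, x'), Or.inr ⟨h1, rfl⟩, h', hA, h2⟩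

/-- If Left survives on `G - H` moving second, `H` a stopper, then she does on `G + X` at least as
well as on `H + X`. -/
theorem mono_left (hH : H.IsStopper) (h : (G.add H.neg).LeftSurvives false) (X : LG) (t : Bool)
    (hX : (H.add X).LeftSurvives t) : (G.add X).LeftSurvives t := by
  refine ⟨fun t gx => (t = false ∧ ∃ h, (G.add H.neg).LeftSurvivesAt false (gx.1, h) ∧
      (H.add X).LeftSurvivesAt false (h, gx.2)) ∨
    (t = true ∧ ∃ h, ((G.add H.neg).LeftSurvivesAt true (gx.1, h) ∧
      (H.add X).LeftSurvivesAt false (h, gx.2)) ∨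
      ((G.add H.neg).LeftSurvivesAt false (gx.1, h) ∧
      (H.add X).LeftSurvivesAt true (h, gx.2))), ?_, ?_, ?_⟩
  · rintro gx (⟨h0, -⟩ | ⟨-, h, ⟨h1, h2⟩ | ⟨h1, h2⟩⟩)
    · exact absurd h0 (by decide)
    · obtain ⟨w, h3, h4⟩ := (reply hH (false, h) gx).1 rfl h1 h2
      exact ⟨w, h3, Or.inl ⟨rfl, h4⟩⟩
    · obtain ⟨w, h3, h4⟩ := (reply hH (true, h) gx).2 rfl h1 h2
      exact ⟨w, h3, Or.inl ⟨rfl, h4⟩⟩
  · rintro ⟨g, x⟩ (⟨-, h, h1, h2⟩ | ⟨h0, -⟩) w hw
    · refine Or.inr ⟨rfl, h, ?_⟩
      obtain ⟨g', x'⟩ := w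
      rcases hw with ⟨h3, h4⟩ | ⟨h3, h4⟩
      · dsimp only at h3 h4
        subst h4
        exact Or.inl ⟨surv_false h1 (Or.inl ⟨h3, rfl⟩), h2⟩
      · dsimp only at h3 h4
        subst h4
        exact Or.inr ⟨h1, surv_false h2 (Or.inr ⟨h3, rfl⟩)⟩
    · exact absurd h0 (by decide)
  · cases t with
    | false => exact Or.inl ⟨rfl, H.start, h, hX⟩
    | true => exact Or.inr ⟨rfl, H.start, Or.inr ⟨h, hX⟩⟩

theorem surv_comm (t : Bool) (h : (G.add H).LeftSurvives t) : (H.add G).LeftSurvives t := by
  obtain ⟨P, h1, h2, h3⟩ := h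
  refine ⟨fun t p => P t (p.2, p.1), ?_, ?_, h3⟩
  · intro v hv
    obtain ⟨w, h4, h5⟩ := h1 _ hv
    refine ⟨(w.2, w.1), ?_, h5⟩
    rcases h4 with h4 | h4
    · exact Or.inr h4
    · exact Or.inl h4
  · intro v hv w hw
    refine h2 _ hv (w.2, w.1) ?_
    rcases hw with hw | hw
    · exact Or.inr hw
    · exact Or.inl hw

theorem neg_stopper (h : G.IsStopper) : G.neg.IsStopper := by
  have e : G.neg.Alt = InvImage G.Alt (fun p : Bool × G.V => (!p.1, p.2)) := by
    funext q p
    obtain ⟨t, v⟩ := q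
    obtain ⟨t', v'⟩ := p
    cases t <;> cases t' <;> simp [LG.Alt, InvImage, LG.neg]
  unfold LG.IsStopper
  rw [e]
  exact InvImage.wf _ h

/-- Criterion for the equality of two stoppers: the second player survives on `G - H`, whoever
this is. -/
theorem equal_of (hG : G.IsStopper) (hH : H.IsStopper) (h1 : (G.add H.neg).LeftSurvives false)
    (h2 : (G.add H.neg).RightSurvives false) : Equal G H := by
  have h2' : (H.add G.neg).LeftSurvives false := surv_comm (G := G.neg) (H := H) false h2
  intro X t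
  refine ⟨⟨mono_left hG h2' X t, mono_left hH h1 X t⟩, ?_, ?_⟩
  · intro h
    exact mono_left (G := H.neg) (H := G.neg) (neg_stopper hG)
      (surv_comm (G := G) (H := H.neg) false h1) X.neg t h
  · intro h
    exact mono_left (G := G.neg) (H := H.neg) (neg_stopper hH) h2 X.neg t h

end

end K1H58.FG
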