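import Pool.Agent.K1H58.FG.Def

/-!
# Fox and Geese: the table computation for Right (the fox)
-/

set_option autoImplicit false
set_option maxRecDepth 100000

namespace K1H58.FG

open K1H58.KR

theorem runR : Nat.testBit (SS 29 0 0 0 0) (ix g st) = true := by
  decide +kernel

end K1H58.FG
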