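import Pool.Agent.K1H58.FG.Def
import Pool.Agent.K1H58.FG.Game

/-!
# Fox and Geese: meaning of the tables
-/

set_option autoImplicit false

namespace K1H58.FG

open K1H58.KR

/-! ### Squares -/

def sqOf (s : ℕ) : ℕ × ℕ := (2 * (s % 4) + s / 4 % 2 + 1, s / 4 + 1)

theorem sqOf_inj {s t : ℕ} (h : sqOf s = sqOf t) : s = t := by
  unfold sqOf at h
  rw [Prod.mk.injEq] at h
  omega

theorem onBoard_sqOf {s : ℕ} (h : s < 32) : OnBoard (sqOf s) := by
  unfold OnBoard sqOf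
  dsimp only
  omega

theorem odd_iff {r : ℕ} : odd r = true ↔ r % 2 = 1 := by
  unfold odd; simp

theorem odd_iff' {r : ℕ} : odd r = false ↔ r % 2 = 0 := by
  rw [← Bool.not_eq_true, odd_iff]; omega

/-- target squares of a goose -/
theorem fwd_cases {r k : ℕ} (hk : k < 4) (hr : r < 8) {t : ℕ × ℕ}
    (h : Forward (sqOf (4 * r + k)) t) (ht : OnBoard t) :
    r < 7 ∧ ∃ s : Bool, okc (odd r) s k = true ∧ tg (odd r) s k < 4 ∧
      t = sqOf (4 * (r + 1) + tg (odd r) s k) := by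
  unfold Forward sqOf at h
  unfold OnBoard at ht
  dsimp only at h
  obtain ⟨t1, t2⟩ := t
  dsimp only at h ht
  have h1 : (4 * r + k) / 4 = r := by omega
  have h2 : (4 * r + k) % 4 = k := by omega
  rw [h1, h2] at h
  refine ⟨by omega, ?_⟩
  rcases Nat.mod_two_eq_zero_or_one r with hp | hp
  · rw [odd_iff'.2 hp]
    by_cases e : t1 = 2 * k + 1 + 1
    · refine ⟨false, rfl, hk, ?_⟩
      unfold sqOf tg
      simp only [cond_false, Prod.mk.injEq]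
      omega
    · refine ⟨true, ?_, ?_, ?_⟩
      · simp only [okc, cond_true, cond_false, Nat.ble_eq]; omega
      · simp only [tg, cond_true, cond_false]; omega
      · unfold sqOf tg
        simp only [cond_true, cond_false, Prod.mk.injEq]
        omega
  · rw [odd_iff.2 hp]
    by_cases e : t1 = 2 * k + 1
    · refine ⟨false, rfl, hk, ?_⟩
      unfold sqOf tg
      simp only [cond_false, Prod.mk.injEq]
      omega
    · refine ⟨true, ?_, ?_, ?_⟩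
      · simp only [okc, cond_true, Nat.blt_eq]; omega
      · simp only [tg, cond_true]; omega
      · unfold sqOf tg
        simp only [cond_true, Prod.mk.injEq]
        omega

theorem fwd_of {r k : ℕ} (hk : k < 4) {s : Bool} (h : okc (odd r) s k = true) :
    tg (odd r) s k < 4 ∧ Forward (sqOf (4 * r + k)) (sqOf (4 * (r + 1) + tg (odd r) s k)) := by
  unfold Forward sqOf
  dsimp only
  rcases Nat.mod_two_eq_zero_or_one r with hp | hp
  · rw [odd_iff'.2 hp] at h ⊢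
    cases s
    · simp only [tg, cond_false]; omega
    · simp only [okc, tg, cond_true, cond_false, Nat.ble_eq] at h ⊢; omega
  · rw [odd_iff.2 hp] at h ⊢
    cases s
    · simp only [tg, cond_false]; omega
    · simp only [okc, tg, cond_true, Nat.blt_eq] at h ⊢; omega

/-- fox steps, in square numbers -/
def Nb (f f' : ℕ) : Prop :=
  f' = f + 4 ∨ f = f' + 4 ∨ ((f / 4 % 2 = 0 ∧ 1 ≤ f % 4) ∧ (f' = f + 3 ∨ f = f' + 5)) ∨
    ((f / 4 % 2 = 1 ∧ f % 4 ≤ 2) ∧ (f' = f + 5 ∨ f = f' + 3))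

theorem nb_of {f : ℕ} (hf : f < 32) {t : ℕ × ℕ} (ht : OnBoard t)
    (h : Forward (sqOf f) t ∨ Forward t (sqOf f)) : ∃ f' < 32, Nb f f' ∧ t = sqOf f' := by
  obtain ⟨t1, t2⟩ := t
  obtain ⟨r, k, hk, rfl⟩ : ∃ r k, k < 4 ∧ f = 4 * r + k :=
    ⟨f / 4, f % 4, Nat.mod_lt _ (by norm_num), by omega⟩
  have e1 : (4 * r + k) / 4 = r := by omega
  have e2 : (4 * r + k) % 4 = k := by omega
  unfold Forward sqOf at h
  unfold OnBoard at ht
  dsimp only at h ht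
  rw [e1, e2] at h
  obtain ⟨r', rfl⟩ : ∃ r', t2 = r' + 1 := ⟨t2 - 1, by omega⟩
  obtain ⟨k', hk'⟩ : ∃ k', t1 = 2 * k' + 1 ∨ t1 = 2 * k' + 2 := ⟨(t1 - 1) / 2, by omega⟩
  have e3 : (4 * r' + k') / 4 = r' := by omega
  have e4 : (4 * r' + k') % 4 = k' := by omega
  refine ⟨4 * r' + k', by omega, ?_, ?_⟩
  · unfold Nb
    rw [e1, e2]
    omega
  · unfold sqOf; rw [Prod.mk.injEq, e3, e4]; omega

theorem of_nb {f f' : ℕ} (hf' : f' < 32) (h : Nb f f') :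
    OnBoard (sqOf f') ∧ (Forward (sqOf f) (sqOf f') ∨ Forward (sqOf f') (sqOf f)) := by
  refine ⟨onBoard_sqOf hf', ?_⟩
  unfold Nb at h
  unfold Forward sqOf
  dsimp only
  omega

theorem nb_ne {f f' : ℕ} (h : Nb f f') : f ≠ f' := by
  unfold Nb at h; omega

/-! ### Masks -/

section
variable {a : Co}

theorem mem_fx (h : InBox g a) {s : ℕ} : mem g (fx s) a ↔ a.b1 = s := by
  rw [fx, mem_sl _ h]; exact Iff.of_eq Nat.beq_eq

theorem mem_cl (h : InBox g a) {y : Axis g} {k : ℕ} : mem g (cl y k) a ↔ y.get a = k := by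
  rw [cl, mem_sl _ h]; exact Iff.of_eq Nat.beq_eq

theorem mem_zero : mem g 0 a ↔ False := by simp [mem]

theorem mem_nF (h : InBox g a) {y : Axis g} (hy : y.n = 4) {r : ℕ} :
    mem g (nF y r) a ↔ a.b1 ≠ 4 * r + y.get a := by
  have hl := y.lt a h
  rw [hy] at hl
  rw [nF, mem_cmp h, mem_or, mem_or, mem_or, mem_and, mem_and, mem_and, mem_and,
    mem_cl h, mem_cl h, mem_cl h, mem_cl h, mem_fx h, mem_fx h, mem_fx h, mem_fx h]
  omega

theorem mem_cf1 (h : InBox g a) {y : Axis g} {r : ℕ} {s : Bool} {k : ℕ} :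
    mem g (cf1 y r s k) a ↔ okc (odd r) s k = true ∧ y.get a = k ∧
      a.b1 ≠ 4 * (r + 1) + tg (odd r) s k := by
  unfold cf1
  cases okc (odd r) s k
  · simp only [cond_false, mem_zero]; simp
  · rw [cond_true, mem_and, mem_cl h, mem_cmp h, mem_fx h]; simp

theorem mem_canF (h : InBox g a) {y : Axis g} (hy : y.n = 4) {r : ℕ} {s : Bool} :
    mem g (canF y r s) a ↔ okc (odd r) s (y.get a) = true ∧
      a.b1 ≠ 4 * (r + 1) + tg (odd r) s (y.get a) := by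
  have hl := y.lt a h
  rw [hy] at hl
  rw [canF, mem_or, mem_or, mem_or, mem_cf1 h, mem_cf1 h, mem_cf1 h, mem_cf1 h]
  rcases (by omega : y.get a = 0 ∨ y.get a = 1 ∨ y.get a = 2 ∨ y.get a = 3) with e | e | e | e <;>
    rw [e] <;> simp

theorem mem_canG (h : InBox g a) {y z : Axis g} (hy : y.n = 4) {o s : Bool} :
    mem g (canG y z o s) a ↔ z.get a ≠ tg o s (y.get a) := by
  have hl := y.lt a h
  rw [hy] at hl
  rw [canG, mem_cmp h, mem_or, mem_or, mem_or, mem_and, mem_and, mem_and, mem_and,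
    mem_cl h, mem_cl h, mem_cl h, mem_cl h, mem_cl h, mem_cl h, mem_cl h, mem_cl h]
  rcases (by omega : y.get a = 0 ∨ y.get a = 1 ∨ y.get a = 2 ∨ y.get a = 3) with e | e | e | e <;>
    rw [e] <;> simp

theorem mem_gz (h : InBox g a) {y z : Axis g} (hy : y.n = 4) {r q : ℕ} {s : Bool} :
    mem g (gz y z r q s) a ↔ (q = r + 1 → z.get a ≠ tg (odd r) s (y.get a)) := by
  unfold gz
  by_cases hq : q = r + 1
  · rw [(Iff.of_eq Nat.beq_eq).2 hq, cond_true, mem_canG h hy]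
    simp [hq]
  · have : Nat.beq q (r + 1) = false := by
      rw [← Bool.not_eq_true, Nat.beq_eq]; exact hq
    rw [this, cond_false]
    exact ⟨fun _ e => absurd e hq, fun _ => mem_full h⟩

theorem mem_pre (h : InBox g a) {y : Axis g} (hy : y.n = 4) {o : Bool} {X : ℕ} :
    mem g (pre y o X) a ↔ okc o true (y.get a) = true ∧
      mem g X (y.set a (tg o true (y.get a))) := by
  unfold pre okc tg
  cases o
  · simp only [cond_true, cond_false, Nat.ble_eq]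
    rw [mem_dnt y h]
  · simp only [cond_true, Nat.blt_eq]
    rw [mem_upt y h, hy]

/-- the move of the goose `y` is possible -/
def Can (y z1 z2 z3 : Axis g) (r q1 q2 q3 : ℕ) (s : Bool) (a : Co) : Prop :=
  okc (odd r) s (y.get a) = true ∧ a.b1 ≠ 4 * (r + 1) + tg (odd r) s (y.get a) ∧
    (q1 = r + 1 → z1.get a ≠ tg (odd r) s (y.get a)) ∧
    (q2 = r + 1 → z2.get a ≠ tg (odd r) s (y.get a)) ∧
    (q3 = r + 1 → z3.get a ≠ tg (odd r) s (y.get a))

theorem mem_canA (h : InBox g a) {y z1 z2 z3 : Axis g} (hy : y.n = 4) {r q1 q2 q3 : ℕ} {s : Bool} :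
    mem g (canA y z1 z2 z3 r q1 q2 q3 s) a ↔ Can y z1 z2 z3 r q1 q2 q3 s a := by
  rw [canA, mem_and, mem_and, mem_and, mem_canF h hy, mem_gz h hy, mem_gz h hy, mem_gz h hy]
  unfold Can
  tauto

theorem mem_exG (h : InBox g a) {y z1 z2 z3 : Axis g} (hy : y.n = 4) {r q1 q2 q3 : ℕ} {X : ℕ}
    (hm : mem g (exG y z1 z2 z3 r q1 q2 q3 X) a) :
    r < 7 ∧ ∃ s, Can y z1 z2 z3 r q1 q2 q3 s a ∧ mem g X (y.set a (tg (odd r) s (y.get a))) := by
  unfold exG at hm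
  by_cases hr : r < 7
  · rw [Nat.blt_eq.mpr hr, cond_true, mem_or, mem_and, mem_and, mem_canA h hy, mem_canA h hy,
      mem_pre h hy] at hm
    refine ⟨hr, ?_⟩
    rcases hm with ⟨h1, h2⟩ | ⟨h1, h2, h3⟩
    · refine ⟨false, h1, ?_⟩
      unfold tg
      rw [cond_false, y.set_get]
      exact h2
    · exact ⟨true, h1, h3⟩
  · have : Nat.blt r 7 = false := by rw [← Bool.not_eq_true, Nat.blt_eq]; exact hr
    rw [this, cond_false] at hm
    exact absurd hm (by simp [mem])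

theorem mem_vioG (h : InBox g a) {y z1 z2 z3 : Axis g} (hy : y.n = 4) {r q1 q2 q3 : ℕ} {X : ℕ}
    (hm : ¬ mem g (vioG y z1 z2 z3 r q1 q2 q3 X) a) (hr : r < 7) (s : Bool)
    (hc : Can y z1 z2 z3 r q1 q2 q3 s a) : mem g X (y.set a (tg (odd r) s (y.get a))) := by
  unfold vioG at hm
  rw [Nat.blt_eq.mpr hr, cond_true, mem_or, mem_and, mem_and, mem_canA h hy, mem_canA h hy,
    mem_cmp h, mem_cmp h, mem_pre h hy] at hm
  push Not at hm
  obtain ⟨m1, m2⟩ := hm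
  cases s
  · have := m1 hc
    unfold tg
    rw [cond_false, y.set_get]
    exact this
  · exact (m2 hc).2

theorem mem_foxN (h : InBox g a) {X : ℕ} :
    mem g (foxN X) a ↔ ∃ f' < 32, Nb a.b1 f' ∧ mem g X { a with b1 := f' } := by
  have hf : a.b1 < 32 := h.hb1
  rw [foxN, mem_or, mem_or, mem_or, mem_and, mem_and, mem_or, mem_or, mem_upt _ h, mem_upt _ h,
    mem_upt _ h, mem_dnt _ h, mem_dnt _ h, mem_dnt _ h, evE1, odO2, mem_sl _ h, mem_sl _ h]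
  show ((((a.b1 + 4 < 32 ∧ mem g X { a with b1 := a.b1 + 4 }) ∨
    (4 ≤ a.b1 ∧ mem g X { a with b1 := a.b1 - 4 })) ∨
    ((Nat.beq (a.b1 / 4 % 2) 0 && Nat.ble 1 (a.b1 % 4)) = true ∧
      ((a.b1 + 3 < 32 ∧ mem g X { a with b1 := a.b1 + 3 }) ∨
      (5 ≤ a.b1 ∧ mem g X { a with b1 := a.b1 - 5 })))) ∨
    ((Nat.beq (a.b1 / 4 % 2) 1 && Nat.ble (a.b1 % 4) 2) = true ∧
      ((a.b1 + 5 < 32 ∧ mem g X { a with b1 := a.b1 + 5 }) ∨
      (3 ≤ a.b1 ∧ mem g X { a with b1 := a.b1 - 3 })))) ↔ _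
  simp only [Bool.and_eq_true, Nat.beq_eq, Nat.ble_eq]
  unfold Nb
  constructor
  · rintro (((⟨h1, h2⟩ | ⟨h1, h2⟩) | ⟨h0, ⟨h1, h2⟩ | ⟨h1, h2⟩⟩) | ⟨h0, ⟨h1, h2⟩ | ⟨h1, h2⟩⟩)
    · exact ⟨_, h1, Or.inl rfl, h2⟩
    · exact ⟨_, by omega, by omega, h2⟩
    · exact ⟨_, h1, by omega, h2⟩
    · exact ⟨_, by omega, by omega, h2⟩
    · exact ⟨_, h1, by omega, h2⟩
    · exact ⟨_, by omega, by omega, h2⟩
  · rintro ⟨f', h1, h2, h3⟩
    rcases h2 with e | e | ⟨e0, e | e⟩ | ⟨e0, e | e⟩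
    · subst e; exact Or.inl (Or.inl (Or.inl ⟨h1, h3⟩))
    · have : f' = a.b1 - 4 := by omega
      subst this; exact Or.inl (Or.inl (Or.inr ⟨by omega, h3⟩))
    · subst e; exact Or.inl (Or.inr ⟨e0, Or.inl ⟨h1, h3⟩⟩)
    · have : f' = a.b1 - 5 := by omega
      subst this; exact Or.inl (Or.inr ⟨e0, Or.inr ⟨by omega, h3⟩⟩)
    · subst e; exact Or.inr ⟨e0, Or.inl ⟨h1, h3⟩⟩
    · have : f' = a.b1 - 3 := by omega
      subst this; exact Or.inr ⟨e0, Or.inr ⟨by omega, h3⟩⟩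

theorem foxBox (h : InBox g a) {f' : ℕ} (hf : f' < 32) : InBox g { a with b1 := f' } :=
  ⟨hf, h.hb2, h.hr1, h.hr2, h.hk1, h.hk2⟩

theorem foxN_mono (h : InBox g a) {X Y : ℕ} (hXY : ∀ a, InBox g a → mem g X a → mem g Y a)
    (hm : mem g (foxN X) a) : mem g (foxN Y) a := by
  rw [mem_foxN h] at hm ⊢
  obtain ⟨f', h1, h2, h3⟩ := hm
  exact ⟨f', h1, h2, hXY _ (foxBox h h1) h3⟩

theorem mem_H0 (h : InBox g a) : mem g H0 a ↔ a.k2 = 0 := by
  rw [H0, mem_sl _ h]; exact Iff.of_eq Nat.beq_eq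

theorem mem_Hp (h : InBox g a) : mem g Hp a ↔ 1 ≤ a.k2 := by
  rw [Hp, mem_sl _ h]; exact Iff.of_eq Nat.ble_eq

theorem mem_H3 (h : InBox g a) : mem g H3 a ↔ a.k2 = 3 := by
  rw [H3, mem_sl _ h]; exact Iff.of_eq Nat.beq_eq

theorem mem_upH (h : InBox g a) {X : ℕ} :
    mem g (upt (axk2 g) 1 X) a ↔ a.k2 + 1 < 4 ∧ mem g X { a with k2 := a.k2 + 1 } := mem_upt _ h

theorem hBox (h : InBox g a) {k : ℕ} (hk : k < 4) : InBox g { a with k2 := k } :=
  ⟨h.hb1, h.hb2, h.hr1, h.hr2, h.hk1, hk⟩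

theorem mem_vF (h : InBox g a) {r1 r2 r3 r4 : ℕ} : mem g (vF r1 r2 r3 r4) a ↔
    a.b1 ≠ 4 * r1 + a.b2 ∧ a.b1 ≠ 4 * r2 + a.r1 ∧ a.b1 ≠ 4 * r3 + a.r2 ∧ a.b1 ≠ 4 * r4 + a.k1 := by
  rw [vF, mem_and, mem_and, mem_and, mem_nF h rfl, mem_nF h rfl, mem_nF h rfl, mem_nF h rfl]
  show (((a.b1 ≠ 4 * r1 + a.b2 ∧ a.b1 ≠ 4 * r2 + a.r1) ∧ a.b1 ≠ 4 * r3 + a.r2) ∧
    a.b1 ≠ 4 * r4 + a.k1) ↔ _
  tauto

/-- fixed points: post-fixed -/
theorem itr_post {fb B D : ℕ} (hfb : ∀ a, InBox g a → mem g fb a →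
      mem g D a ∨ (mem g B a ∧ mem g (foxN fb) a)) :
    ∀ n X, ∀ a, InBox g a → mem g (itr fb B D n X) a →
      mem g D a ∨ (mem g B a ∧ mem g (foxN (itr fb B D n X)) a)
  | 0, _ => hfb
  | n + 1, X => by
    intro a ha hm
    have e : itr fb B D (n + 1) X = cond (Nat.beq (D ||| (B &&& foxN X)) X) X
      (itr fb B D n (D ||| (B &&& foxN X))) := rfl
    rw [e] at hm ⊢
    by_cases hb : Nat.beq (D ||| (B &&& foxN X)) X = true
    · rw [hb, cond_true] at hm ⊢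
      have e2 := Nat.eq_of_beq_eq_true hb
      rw [← e2, mem_or, mem_and] at hm
      exact hm
    · rw [Bool.not_eq_true] at hb
      rw [hb, cond_false] at hm ⊢
      exact itr_post hfb n _ a ha hm

/-- fixed points: pre-fixed -/
theorem itr_pre {fb B D : ℕ} (hfb : ∀ a, InBox g a →
      (mem g D a ∨ (mem g B a ∧ mem g (foxN fb) a)) → mem g fb a) :
    ∀ n X, ∀ a, InBox g a → (mem g D a ∨ (mem g B a ∧ mem g (foxN (itr fb B D n X)) a)) →
      mem g (itr fb B D n X) a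
  | 0, _ => hfb
  | n + 1, X => by
    intro a ha hm
    have e : itr fb B D (n + 1) X = cond (Nat.beq (D ||| (B &&& foxN X)) X) X
      (itr fb B D n (D ||| (B &&& foxN X))) := rfl
    rw [e] at hm ⊢
    by_cases hb : Nat.beq (D ||| (B &&& foxN X)) X = true
    · rw [hb, cond_true] at hm ⊢
      have e2 := Nat.eq_of_beq_eq_true hb
      rw [← e2, mem_or, mem_and]
      exact hm
    · rw [Bool.not_eq_true] at hb
      rw [hb, cond_false] at hm ⊢
      exact itr_pre hfb n _ a ha hm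

/-- Left to move, Right survives -/
theorem mem_sFin (h : InBox g a) {Y : ℕ} (hm : mem g (sFin Y) a) :
    mem g Y a ∧ (a.k2 = 0 → mem g (tOf (sFin Y)) a) := by
  obtain ⟨Yp, hYp⟩ : ∃ Yp, Yp = Y &&& Hp := ⟨_, rfl⟩
  obtain ⟨Y0, hY0⟩ : ∃ Y0, Y0 = Y &&& H0 := ⟨_, rfl⟩
  obtain ⟨D, hD⟩ : ∃ D, D = Y0 &&& upt (axk2 g) 1 Yp := ⟨_, rfl⟩
  obtain ⟨Z, hZ⟩ : ∃ Z, Z = itr D Y0 D 40 Y0 := ⟨_, rfl⟩
  have e : sFin Y = Yp ||| Z := by
    rw [hZ, hD, hYp, hY0]; rfl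
  have hpost : ∀ a, InBox g a → mem g Z a → mem g D a ∨ (mem g Y0 a ∧ mem g (foxN Z) a) := by
    rw [hZ]
    exact itr_post (fun a _ hm => Or.inl hm) 40 Y0
  rw [e, mem_or] at hm
  rw [e]
  rcases hm with hm | hm
  · rw [hYp, mem_and, mem_Hp h] at hm
    exact ⟨hm.1, fun h0 => by omega⟩
  · rcases hpost a h hm with h1 | ⟨h1, h2⟩
    · rw [hD, mem_and, mem_upH h] at h1
      obtain ⟨h1, h2, h3⟩ := h1
      have h4 : mem g Y a := by
        rw [hY0, mem_and] at h1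
        exact h1.1
      refine ⟨h4, fun h0 => ?_⟩
      rw [tOf, mem_or, mem_upH h]
      exact Or.inr ⟨h2, mem_or.2 (Or.inl h3)⟩
    · have h4 : mem g Y a := by
        rw [hY0, mem_and] at h1
        exact h1.1
      refine ⟨h4, fun h0 => ?_⟩
      rw [tOf, mem_or]
      exact Or.inl (foxN_mono h (fun a _ h => mem_or.2 (Or.inr h)) h2)

theorem mem_uOf (h : InBox g a) {v W : ℕ} : mem g (uOf v W) a ↔
    (∀ f' < 32, Nb a.b1 f' → mem g v { a with b1 := f' } → mem g W { a with b1 := f' }) ∧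
    (a.k2 = 3 ∨ (a.k2 + 1 < 4 ∧ mem g W { a with k2 := a.k2 + 1 })) := by
  rw [uOf, mem_and, mem_cmp h, mem_foxN h, mem_or, mem_H3 h, mem_upH h]
  refine and_congr_left fun _ => ?_
  constructor
  · intro h1 f' hf hn hv
    by_contra hc
    exact h1 ⟨f', hf, hn, mem_and.2 ⟨hv, (mem_cmp (foxBox h hf)).2 hc⟩⟩
  · rintro h1 ⟨f', hf, hn, h2⟩
    rw [mem_and, mem_cmp (foxBox h hf)] at h2
    exact h2.2 (h1 f' hf hn h2.1)

/-- Left to move, Left survives -/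
theorem mem_wFin (h : InBox g a) {v E : ℕ} (hm : mem g (wFin v E) a) :
    mem g E a ∨ (a.k2 = 0 ∧ mem g (uOf v (wFin v E)) a) := by
  obtain ⟨V0, hV0⟩ : ∃ V0, V0 = v &&& H0 := ⟨_, rfl⟩
  obtain ⟨B, hB⟩ : ∃ B, B = V0 &&& cmp g E := ⟨_, rfl⟩
  obtain ⟨D, hD⟩ : ∃ D, D = B &&& cmp g (upt (axk2 g) 1 E) := ⟨_, rfl⟩
  obtain ⟨Z, hZ⟩ : ∃ Z, Z = itr B B D 40 0 := ⟨_, rfl⟩
  have e : wFin v E = (E &&& Hp) ||| (V0 &&& cmp g Z) := by
    rw [hZ, hD, hB, hV0]; rfl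
  have hpre : ∀ a, InBox g a → (mem g D a ∨ (mem g B a ∧ mem g (foxN Z) a)) → mem g Z a := by
    rw [hZ]
    refine itr_pre (fun a _ hm => ?_) 40 0
    rcases hm with hm | hm
    · rw [hD, mem_and] at hm; exact hm.1
    · exact hm.1
  rw [e, mem_or, mem_and, mem_and, mem_cmp h] at hm
  rw [e]
  rcases hm with hm | ⟨h1, h2⟩
  · exact Or.inl hm.1
  · by_cases hE : mem g E a
    · exact Or.inl hE
    · have hk : a.k2 = 0 := by
        rw [hV0, mem_and, mem_H0 h] at h1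
        exact h1.2
      refine Or.inr ⟨hk, ?_⟩
      have hBa : mem g B a := by
        rw [hB, mem_and, mem_cmp h]
        exact ⟨h1, hE⟩
      have h3 : ¬ (mem g D a ∨ (mem g B a ∧ mem g (foxN Z) a)) := fun e => h2 (hpre a h e)
      push Not at h3
      obtain ⟨h3, h4⟩ := h3
      have h4 := h4 hBa
      rw [hD, mem_and, mem_cmp h] at h3
      push Not at h3
      have h5 := h3 hBa
      rw [mem_upH h] at h5
      rw [mem_uOf h]
      refine ⟨fun f' hf hn hv => ?_, Or.inr ⟨h5.1, mem_or.2 (Or.inl (mem_and.2 ⟨h5.2, ?_⟩))⟩⟩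
      · have hb' := foxBox h hf
        refine mem_or.2 (Or.inr (mem_and.2 ⟨?_, ?_⟩))
        · rw [hV0, mem_and, mem_H0 hb']
          exact ⟨hv, hk⟩
        · rw [mem_cmp hb']
          intro hz
          exact h4 ((mem_foxN h).2 ⟨f', hf, hn, hz⟩)
      · rw [mem_Hp (hBox h h5.1)]
        dsimp only
        omega

end

end K1H58.FG
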