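import Pool.Agent.K1H58.FG.Sem

/-!
# Fox and Geese: the tables describe strategies
-/

set_option autoImplicit false

namespace K1H58.FG

open K1H58.KR

/-- square of goose `i` -/
def gs (rr cc : Fin 4 → ℕ) (i : Fin 4) : ℕ × ℕ := sqOf (4 * rr i + cc i)

theorem goose_real {p q : FGPos} {rr cc : Fin 4 → ℕ} {f : ℕ} (hg : ∀ i, p.goose i = gs rr cc i)
    (hf : p.fox = sqOf f) (hc : ∀ i, cc i < 4) (hr : ∀ i, rr i < 8) (hm : foxAndGeese.L p q) :
    ∃ i s, rr i < 7 ∧ okc (odd (rr i)) s (cc i) = true ∧ tg (odd (rr i)) s (cc i) < 4 ∧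
      f ≠ 4 * (rr i + 1) + tg (odd (rr i)) s (cc i) ∧
      (∀ j, j ≠ i → rr j = rr i + 1 → cc j ≠ tg (odd (rr i)) s (cc i)) ∧
      (∀ j, q.goose j = gs (Function.update rr i (rr i + 1))
        (Function.update cc i (tg (odd (rr i)) s (cc i))) j) ∧ q.fox = sqOf f := by
  obtain ⟨i, h1, h2, h3, h4, h5⟩ := hm
  rw [hg i] at h2
  obtain ⟨g1, s, g2, g3, g4⟩ := fwd_cases (hc i) (hr i) h2 h1
  refine ⟨i, s, g1, g2, g3, ?_, ?_, ?_, h5.trans hf⟩
  · intro e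
    apply h3.1
    rw [g4, hf, e]
  · intro j hj e1 e2
    apply h3.2 j
    rw [g4, hg j, gs, e1, e2]
  · intro j
    by_cases hj : j = i
    · subst hj
      rw [g4, gs, Function.update_self, Function.update_self]
    · rw [h4 j hj, hg j, gs, gs, Function.update_of_ne hj, Function.update_of_ne hj]

theorem goose_table {p : FGPos} {rr cc : Fin 4 → ℕ} {f : ℕ} (hg : ∀ i, p.goose i = gs rr cc i)
    (hf : p.fox = sqOf f) (hc : ∀ i, cc i < 4) {i : Fin 4} {s : Bool}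
    (h7 : rr i < 7) (hok : okc (odd (rr i)) s (cc i) = true)
    (hff : f ≠ 4 * (rr i + 1) + tg (odd (rr i)) s (cc i))
    (hj : ∀ j, j ≠ i → rr j = rr i + 1 → cc j ≠ tg (odd (rr i)) s (cc i)) :
    foxAndGeese.L p ⟨gs (Function.update rr i (rr i + 1))
        (Function.update cc i (tg (odd (rr i)) s (cc i))), p.fox⟩ := by
  obtain ⟨g1, g2⟩ := fwd_of (hc i) hok
  have e : gs (Function.update rr i (rr i + 1))
        (Function.update cc i (tg (odd (rr i)) s (cc i))) i =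
      sqOf (4 * (rr i + 1) + tg (odd (rr i)) s (cc i)) := by
    rw [gs, Function.update_self, Function.update_self]
  refine ⟨i, ?_, ?_, ⟨?_, fun j => ?_⟩, fun j hj => ?_, rfl⟩
  · show OnBoard (gs _ _ i)
    rw [e]
    exact onBoard_sqOf (by omega)
  · show Forward _ (gs _ _ i)
    rw [e, hg i]
    exact g2
  · show gs _ _ i ≠ _
    rw [e, hf]
    exact fun e => hff (sqOf_inj e).symm
  · show gs _ _ i ≠ _
    rw [e, hg j]
    intro e1
    have e2 := sqOf_inj e1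
    have := hc j
    by_cases hji : j = i
    · subst hji; omega
    · exact hj j hji (by omega) (by omega)
  · show gs _ _ j = _
    rw [hg j, gs, gs, Function.update_of_ne hj, Function.update_of_ne hj]

/-- columns of the geese -/
def cc (a : Co) : Fin 4 → ℕ := ![a.b2, a.r1, a.r2, a.k1]

structure Rl (p : FGPos) (h : Fin 4) (rr : Fin 4 → ℕ) (a : Co) : Prop where
  box : InBox g a
  hg : ∀ i, p.goose i = gs rr (cc a) i
  hf : p.fox = sqOf a.b1
  hh : h.val = a.k2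
  hr : ∀ i, rr i < 8

theorem cc_lt {a : Co} (h : InBox g a) (i : Fin 4) : cc a i < 4 := by
  fin_cases i
  · exact h.hb2
  · exact h.hr1
  · exact h.hr2
  · exact h.hk1

def vFr (rr : Fin 4 → ℕ) : ℕ := vF (rr 0) (rr 1) (rr 2) (rr 3)

section
variable {p : FGPos} {h : Fin 4} {rr : Fin 4 → ℕ} {a : Co}

theorem mem_vFr (hb : InBox g a) : mem g (vFr rr) a ↔ ∀ i, a.b1 ≠ 4 * rr i + cc a i := by
  rw [vFr, mem_vF hb]
  constructor
  · rintro ⟨h1, h2, h3, h4⟩ i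
    fin_cases i
    · exact h1
    · exact h2
    · exact h3
    · exact h4
  · intro h
    exact ⟨h 0, h 1, h 2, h 3⟩

theorem Rl.foxMove (hl : Rl p h rr a) {f' : ℕ} (hf : f' < 32) (hn : Nb a.b1 f')
    (hv : mem g (vFr rr) { a with b1 := f' }) :
    foxAndGeese.R p ⟨p.goose, sqOf f'⟩ ∧ Rl ⟨p.goose, sqOf f'⟩ h rr { a with b1 := f' } := by
  have hb := foxBox hl.box hf
  rw [mem_vFr hb] at hv
  obtain ⟨h1, h2⟩ := of_nb hf hn
  refine ⟨⟨h1, ?_, ⟨?_, fun i => ?_⟩, rfl⟩, ⟨hb, hl.hg, rfl, hl.hh, hl.hr⟩⟩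
  · rw [hl.hf]; exact h2
  · show sqOf f' ≠ p.fox
    rw [hl.hf]
    exact fun e => nb_ne hn (sqOf_inj e).symm
  · show sqOf f' ≠ p.goose i
    rw [hl.hg i]
    exact fun e => hv i (sqOf_inj e)

theorem Rl.foxReal (hl : Rl p h rr a) {q : FGPos} (hm : foxAndGeese.R p q) :
    ∃ f' < 32, Nb a.b1 f' ∧ mem g (vFr rr) { a with b1 := f' } ∧
      Rl q h rr { a with b1 := f' } := by
  obtain ⟨h1, h2, h3, h4⟩ := hm
  rw [hl.hf] at h2
  obtain ⟨f', g1, g2, g3⟩ := nb_of hl.box.hb1 h1 h2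
  have hb := foxBox hl.box g1
  refine ⟨f', g1, g2, ?_, ⟨hb, fun i => ?_, g3, hl.hh, hl.hr⟩⟩
  · rw [mem_vFr hb]
    intro i e
    apply h3.2 i
    rw [g3, hl.hg i, gs]
    exact congrArg sqOf e
  · rw [h4]; exact hl.hg i

/-- the four kinds of goose moves in the tables -/
inductive GM (rr : Fin 4 → ℕ) (a : Co) : (Fin 4 → ℕ) → Co → Prop
  | g0 (s : Bool) : rr 0 < 7 →
      Can (axb2 g) (axr1 g) (axr2 g) (axk1 g) (rr 0) (rr 1) (rr 2) (rr 3) s a →
      GM rr a (Function.update rr 0 (rr 0 + 1)) ((axb2 g).set a (tg (odd (rr 0)) s a.b2))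
  | g1 (s : Bool) : rr 1 < 7 →
      Can (axr1 g) (axb2 g) (axr2 g) (axk1 g) (rr 1) (rr 0) (rr 2) (rr 3) s a →
      GM rr a (Function.update rr 1 (rr 1 + 1)) ((axr1 g).set a (tg (odd (rr 1)) s a.r1))
  | g2 (s : Bool) : rr 2 < 7 →
      Can (axr2 g) (axb2 g) (axr1 g) (axk1 g) (rr 2) (rr 0) (rr 1) (rr 3) s a →
      GM rr a (Function.update rr 2 (rr 2 + 1)) ((axr2 g).set a (tg (odd (rr 2)) s a.r2))
  | g3 (s : Bool) : rr 3 < 7 →
      Can (axk1 g) (axb2 g) (axr1 g) (axr2 g) (rr 3) (rr 0) (rr 1) (rr 2) s a →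
      GM rr a (Function.update rr 3 (rr 3 + 1)) ((axk1 g).set a (tg (odd (rr 3)) s a.k1))

theorem upd_lt (hr : ∀ i, rr i < 8) {i : Fin 4} (h7 : rr i < 7) (j : Fin 4) :
    Function.update rr i (rr i + 1) j < 8 := by
  by_cases hj : j = i
  · subst hj; rw [Function.update_self]; omega
  · rw [Function.update_of_ne hj]; exact hr j

theorem Rl.gooseReal (hl : Rl p h rr a) {q : FGPos} (hm : foxAndGeese.L p q) :
    ∃ rr' a', GM rr a rr' a' ∧ Rl q h rr' a' := by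
  obtain ⟨i, s, h1, h2, h3, h4, h5, h6, h7⟩ :=
    goose_real hl.hg hl.hf (cc_lt hl.box) hl.hr hm
  have hu := upd_lt hl.hr h1
  have hb := hl.box
  fin_cases i
  · refine ⟨_, _, GM.g0 s h1 ⟨h2, h4, fun e => h5 1 (by decide) e, fun e => h5 2 (by decide) e,
      fun e => h5 3 (by decide) e⟩, ⟨(axb2 g).box a _ hb h3, fun j => ?_, h7, hl.hh, hu⟩⟩
    rw [h6 j]
    refine congrArg (fun c => gs _ c j) ?_
    funext k; fin_cases k <;> rfl
  · refine ⟨_, _, GM.g1 s h1 ⟨h2, h4, fun e => h5 0 (by decide) e, fun e => h5 2 (by decide) e,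
      fun e => h5 3 (by decide) e⟩, ⟨(axr1 g).box a _ hb h3, fun j => ?_, h7, hl.hh, hu⟩⟩
    rw [h6 j]
    refine congrArg (fun c => gs _ c j) ?_
    funext k; fin_cases k <;> rfl
  · refine ⟨_, _, GM.g2 s h1 ⟨h2, h4, fun e => h5 0 (by decide) e, fun e => h5 1 (by decide) e,
      fun e => h5 3 (by decide) e⟩, ⟨(axr2 g).box a _ hb h3, fun j => ?_, h7, hl.hh, hu⟩⟩
    rw [h6 j]
    refine congrArg (fun c => gs _ c j) ?_
    funext k; fin_cases k <;> rfl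
  · refine ⟨_, _, GM.g3 s h1 ⟨h2, h4, fun e => h5 0 (by decide) e, fun e => h5 1 (by decide) e,
      fun e => h5 2 (by decide) e⟩, ⟨(axk1 g).box a _ hb h3, fun j => ?_, h7, hl.hh, hu⟩⟩
    rw [h6 j]
    refine congrArg (fun c => gs _ c j) ?_
    funext k; fin_cases k <;> rfl

theorem Rl.gooseTable (hl : Rl p h rr a) {rr' : Fin 4 → ℕ} {a' : Co} (hm : GM rr a rr' a') :
    ∃ q, foxAndGeese.L p q ∧ Rl q h rr' a' := by
  have hb := hl.box
  have hc := cc_lt hb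
  cases hm with
  | g0 s h1 h2 =>
    obtain ⟨c1, c2, c3, c4, c5⟩ := h2
    refine ⟨_, goose_table hl.hg hl.hf hc (i := 0) h1 c1 c2 ?_,
      ⟨(axb2 g).box a _ hb (fwd_of (hc 0) c1).1, fun j => ?_, hl.hf, hl.hh, upd_lt hl.hr h1⟩⟩
    · intro j hj
      fin_cases j
      · exact absurd rfl hj
      · exact c3
      · exact c4
      · exact c5
    · show gs _ _ j = _
      refine congrArg (fun c => gs _ c j) ?_
      funext k; fin_cases k <;> rfl
  | g1 s h1 h2 =>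
    obtain ⟨c1, c2, c3, c4, c5⟩ := h2
    refine ⟨_, goose_table hl.hg hl.hf hc (i := 1) h1 c1 c2 ?_,
      ⟨(axr1 g).box a _ hb (fwd_of (hc 1) c1).1, fun j => ?_, hl.hf, hl.hh, upd_lt hl.hr h1⟩⟩
    · intro j hj
      fin_cases j
      · exact c3
      · exact absurd rfl hj
      · exact c4
      · exact c5
    · show gs _ _ j = _
      refine congrArg (fun c => gs _ c j) ?_
      funext k; fin_cases k <;> rfl
  | g2 s h1 h2 =>
    obtain ⟨c1, c2, c3, c4, c5⟩ := h2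
    refine ⟨_, goose_table hl.hg hl.hf hc (i := 2) h1 c1 c2 ?_,
      ⟨(axr2 g).box a _ hb (fwd_of (hc 2) c1).1, fun j => ?_, hl.hf, hl.hh, upd_lt hl.hr h1⟩⟩
    · intro j hj
      fin_cases j
      · exact c3
      · exact c4
      · exact absurd rfl hj
      · exact c5
    · show gs _ _ j = _
      refine congrArg (fun c => gs _ c j) ?_
      funext k; fin_cases k <;> rfl
  | g3 s h1 h2 =>
    obtain ⟨c1, c2, c3, c4, c5⟩ := h2
    refine ⟨_, goose_table hl.hg hl.hf hc (i := 3) h1 c1 c2 ?_,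
      ⟨(axk1 g).box a _ hb (fwd_of (hc 3) c1).1, fun j => ?_, hl.hf, hl.hh, upd_lt hl.hr h1⟩⟩
    · intro j hj
      fin_cases j
      · exact c3
      · exact c4
      · exact c5
      · exact absurd rfl hj
    · show gs _ _ j = _
      refine congrArg (fun c => gs _ c j) ?_
      funext k; fin_cases k <;> rfl

def SSr (n : ℕ) (rr : Fin 4 → ℕ) : ℕ := SS n (rr 0) (rr 1) (rr 2) (rr 3)

def WWr (n : ℕ) (rr : Fin 4 → ℕ) : ℕ := WW n (rr 0) (rr 1) (rr 2) (rr 3)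

theorem SSr_succ (n : ℕ) (rr : Fin 4 → ℕ) : SSr (n + 1) rr =
    sOf (rr 0) (rr 1) (rr 2) (rr 3) (tOf (SSr n (Function.update rr 0 (rr 0 + 1))))
      (tOf (SSr n (Function.update rr 1 (rr 1 + 1)))) (tOf (SSr n (Function.update rr 2 (rr 2 + 1))))
      (tOf (SSr n (Function.update rr 3 (rr 3 + 1)))) := rfl

theorem WWr_succ (n : ℕ) (rr : Fin 4 → ℕ) : WWr (n + 1) rr =
    wOf (rr 0) (rr 1) (rr 2) (rr 3)
      (uOf (vFr (Function.update rr 0 (rr 0 + 1))) (WWr n (Function.update rr 0 (rr 0 + 1))))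
      (uOf (vFr (Function.update rr 1 (rr 1 + 1))) (WWr n (Function.update rr 1 (rr 1 + 1))))
      (uOf (vFr (Function.update rr 2 (rr 2 + 1))) (WWr n (Function.update rr 2 (rr 2 + 1))))
      (uOf (vFr (Function.update rr 3 (rr 3 + 1))) (WWr n (Function.update rr 3 (rr 3 + 1)))) := rfl

/-- Left to move, Right survives -/
theorem mem_SSr (hb : InBox g a) {n : ℕ} (hm : mem g (SSr n rr) a) :
    mem g (vFr rr) a ∧ (a.k2 = 0 → mem g (tOf (SSr n rr)) a) ∧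
    ∀ rr' a', GM rr a rr' a' → ∃ m, mem g (tOf (SSr m rr')) a' := by
  cases n with
  | zero => exact absurd hm (by simp [SSr, SS, mem])
  | succ n =>
    rw [SSr_succ] at hm ⊢
    unfold sOf at hm ⊢
    obtain ⟨h1, h2⟩ := mem_sFin hb hm
    rw [mem_and, mem_cmp hb, mem_or, mem_or, mem_or] at h1
    push Not at h1
    obtain ⟨h3, ⟨⟨h4, h5⟩, h6⟩, h7⟩ := h1
    refine ⟨h3, h2, fun rr' a' hG => ⟨n, ?_⟩⟩
    cases hG with
    | g0 s e1 e2 => exact mem_vioG hb rfl h4 e1 s e2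
    | g1 s e1 e2 => exact mem_vioG hb rfl h5 e1 s e2
    | g2 s e1 e2 => exact mem_vioG hb rfl h6 e1 s e2
    | g3 s e1 e2 => exact mem_vioG hb rfl h7 e1 s e2

/-- Left to move, Left survives -/
theorem mem_WWr (hb : InBox g a) {n : ℕ} (hm : mem g (WWr n rr) a) :
    (∃ rr' a' m, GM rr a rr' a' ∧ mem g (uOf (vFr rr') (WWr m rr')) a') ∨
    (a.k2 = 0 ∧ mem g (uOf (vFr rr) (WWr n rr)) a) := by
  cases n with
  | zero => exact absurd hm (by simp [WWr, WW, mem])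
  | succ n =>
    rw [WWr_succ] at hm ⊢
    unfold wOf at hm ⊢
    rcases mem_wFin hb hm with h1 | h1
    · refine Or.inl ?_
      rw [mem_or, mem_or, mem_or] at h1
      rcases h1 with ((h1 | h1) | h1) | h1
      · obtain ⟨e1, s, e2, e3⟩ := mem_exG hb rfl h1
        exact ⟨_, _, n, GM.g0 s e1 e2, e3⟩
      · obtain ⟨e1, s, e2, e3⟩ := mem_exG hb rfl h1
        exact ⟨_, _, n, GM.g1 s e1 e2, e3⟩
      · obtain ⟨e1, s, e2, e3⟩ := mem_exG hb rfl h1
        exact ⟨_, _, n, GM.g2 s e1 e2, e3⟩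
      · obtain ⟨e1, s, e2, e3⟩ := mem_exG hb rfl h1
        exact ⟨_, _, n, GM.g3 s e1 e2, e3⟩
    · exact Or.inr h1

end

/-- the starting position, with the second component at its start -/
theorem rl_start : Rl foxAndGeese.start 0 (fun _ => 0) st := by
  refine ⟨⟨by decide, by decide, by decide, by decide, by decide, by decide⟩, ?_, by decide,
    by decide, fun _ => by norm_num⟩
  intro i
  fin_cases i <;> rfl

/-- Right survives moving second. -/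
theorem right_survives {N : ℕ} {rr₀ : Fin 4 → ℕ} {a₀ : Co} (h₀ : Rl foxAndGeese.start 0 rr₀ a₀)
    (hrun : mem g (SSr N rr₀) a₀) : (foxAndGeese.add twoOver.neg).RightSurvives false := by
  refine ⟨fun t (p : FGPos × Fin 4) => ∃ n rr a, Rl p.1 p.2 rr a ∧
    mem g (cond t (tOf (SSr n rr)) (SSr n rr)) a, ?_, ?_, ?_⟩
  · rintro ⟨p, h⟩ ⟨n, rr, a, h1, h2⟩
    have hb := h1.box
    rw [cond_true, tOf, mem_or, mem_foxN hb, mem_upH hb] at h2
    rcases h2 with ⟨f', g1, g2, g3⟩ | ⟨g1, g2⟩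
    · obtain ⟨e1, e2⟩ := h1.foxMove g1 g2 (mem_SSr (foxBox hb g1) g3).1
      exact ⟨(⟨p.goose, sqOf f'⟩, h), Or.inl ⟨e1, rfl⟩, n, rr, _, e2, g3⟩
    · refine ⟨(p, ⟨a.k2 + 1, g1⟩), Or.inr ⟨?_, rfl⟩, n, rr, _, ⟨hBox hb g1, h1.hg, h1.hf, rfl,
        h1.hr⟩, g2⟩
      show a.k2 + 1 = (h : Fin 4).val + 1
      rw [h1.hh]
  · rintro ⟨p, h⟩ ⟨n, rr, a, h1, h2⟩ ⟨q, h'⟩ hw
    have hb := h1.box
    rw [cond_false] at h2
    obtain ⟨m1, m2, m3⟩ := mem_SSr hb h2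
    rcases hw with ⟨g1, g2⟩ | ⟨⟨g1, g2⟩, g3⟩
    · have g1' : foxAndGeese.L p q := g1
      obtain ⟨rr', a', e1, e2⟩ := h1.gooseReal g1'
      obtain ⟨m, e3⟩ := m3 rr' a' e1
      have g2' : h' = h := g2
      subst g2'
      exact ⟨m, rr', a', e2, e3⟩
    · have e1 : @Eq (Fin 4) h 0 := g1
      have e2 : @Eq (Fin 4) h' 0 := g2
      have e3 : q = p := g3
      have e4 : h' = h := e2.trans e1.symm
      subst e3 e4
      refine ⟨n, rr, a, h1, m2 ?_⟩
      rw [← h1.hh, e1]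
      rfl
  · exact ⟨N, rr₀, a₀, h₀, hrun⟩

/-- Left survives moving second. -/
theorem left_survives {N : ℕ} {rr₀ : Fin 4 → ℕ} {a₀ : Co} (h₀ : Rl foxAndGeese.start 0 rr₀ a₀)
    (hrun : mem g (uOf (vFr rr₀) (WWr N rr₀)) a₀) :
    (foxAndGeese.add twoOver.neg).LeftSurvives false := by
  refine ⟨fun t (p : FGPos × Fin 4) => ∃ n rr a, Rl p.1 p.2 rr a ∧
    mem g (cond t (WWr n rr) (uOf (vFr rr) (WWr n rr))) a, ?_, ?_, ?_⟩
  · rintro ⟨p, h⟩ ⟨n, rr, a, h1, h2⟩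
    have hb := h1.box
    rw [cond_true] at h2
    rcases mem_WWr hb h2 with ⟨rr', a', m, e1, e2⟩ | ⟨e1, e2⟩
    · obtain ⟨q, e3, e4⟩ := h1.gooseTable e1
      exact ⟨(q, h), Or.inl ⟨e3, rfl⟩, m, rr', a', e4, e2⟩
    · refine ⟨(p, h), Or.inr ⟨?_, rfl⟩, n, rr, a, h1, e2⟩
      have e3 : @Eq (Fin 4) h 0 := Fin.ext (h1.hh.trans e1)
      exact ⟨e3, e3⟩
  · rintro ⟨p, h⟩ ⟨n, rr, a, h1, h2⟩ ⟨q, h'⟩ hw
    have hb := h1.box
    rw [cond_false, mem_uOf hb] at h2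
    obtain ⟨m1, m2⟩ := h2
    rcases hw with ⟨g1, g2⟩ | ⟨g1, g2⟩
    · have g1' : foxAndGeese.R p q := g1
      obtain ⟨f', e1, e2, e3, e4⟩ := h1.foxReal g1'
      have g2' : h' = h := g2
      subst g2'
      exact ⟨n, rr, _, e4, m1 f' e1 e2 e3⟩
    · have e1 : (h' : Fin 4).val = (h : Fin 4).val + 1 := g1
      have e3 : q = p := g2
      subst e3
      have e4 := h1.hh
      have e5 : (h' : Fin 4).val < 4 := (h' : Fin 4).isLt
      rcases m2 with m2 | ⟨m2, m3⟩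
      · exfalso
        dsimp only at e4
        omega
      · refine ⟨n, rr, _, ⟨hBox hb m2, h1.hg, h1.hf, ?_, h1.hr⟩, m3⟩
        show (h' : Fin 4).val = a.k2 + 1
        rw [e1, ← e4]
  · exact ⟨N, rr₀, a₀, h₀, hrun⟩

end K1H58.FG
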