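import Pool.Agent.K1H58.FG.Game

/-!
# `{2 | G} = G` is the sum of `2` and `1 / on`
-/

set_option autoImplicit false

namespace K1H58.FG

def bt (m : ℕ) (v : Fin 4) (k : Fin 3) (b : Bool) : Prop :=
  Nat.testBit m (v.val * 6 + k.val * 2 + b.toNat) = true

instance (m : ℕ) (v : Fin 4) (k : Fin 3) (b : Bool) : Decidable (bt m v k b) := by
  unfold bt; infer_instance

theorem l1 : ∀ (v : Fin 4) (k : Fin 3) (b : Bool), bt 13311 v k b →
    (∃ v' : Fin 4, v'.val = v.val + 1 ∧ bt 292863 v' k b) ∨ (b = true ∧ bt 292863 v k b) := by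
  decide

theorem l2 : ∀ (v : Fin 4) (k : Fin 3) (b : Bool), bt 292863 v k b →
    (v = 0 → bt 13311 v k b) ∧ (∀ k' : Fin 3, k.val = k'.val + 1 → bt 13311 v k' b) ∧
    (b = true → bt 13311 v k false) := by
  decide

theorem r1 : ∀ (v : Fin 4) (k : Fin 3) (b : Bool), bt 16484384 v k b →
    (v = 0 ∧ bt 16763936 v k b) ∨ (∃ k' : Fin 3, k.val = k'.val + 1 ∧ bt 16763936 v k' b) ∨
    (b = true ∧ bt 16763936 v k false) := by
  decide

theorem r2 : ∀ (v : Fin 4) (k : Fin 3) (b : Bool), bt 16763936 v k b →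
    (∀ v' : Fin 4, v'.val = v.val + 1 → bt 16484384 v' k b) ∧ (b = true → bt 16484384 v k b) := by
  decide

theorem twoOver_eq : Equal twoOver (two.add overOn) := by
  refine equal_of twoOver_stopper sum_stopper ?_ ?_
  · refine ⟨fun t p => cond t (bt 13311 p.1 p.2.1 p.2.2) (bt 292863 p.1 p.2.1 p.2.2), ?_, ?_, ?_⟩
    · rintro ⟨v, k, b⟩ h
      rcases l1 v k b h with ⟨v', h1, h2⟩ | ⟨h1, h2⟩
      · exact ⟨(v', k, b), Or.inl ⟨h1, rfl⟩, h2⟩
      · exact ⟨(v, k, b), Or.inr ⟨Or.inr ⟨⟨h1, h1⟩, rfl⟩, rfl⟩, h2⟩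
    · rintro ⟨v, k, b⟩ h ⟨v', k', b'⟩ hw
      obtain ⟨h1, h2, h3⟩ := l2 v k b h
      rcases hw with ⟨⟨g1, g2⟩, g3⟩ | ⟨⟨g1, g2⟩ | ⟨⟨g1, g2⟩, g3⟩, g4⟩
      · have e1 : @Eq (Fin 4) v 0 := g1
        have e2 : @Eq (Fin 4) v' 0 := g2
        have e3 : k' = k := congrArg Prod.fst g3
        have e4 : b' = b := congrArg Prod.snd g3
        have e5 : v' = v := e2.trans e1.symm
        subst e3 e4 e5
        exact h1 e1
      · have e1 : k.val = k'.val + 1 := g1
        have e2 : b' = b := g2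
        have e3 : v' = v := g4
        subst e2 e3
        exact h2 k' e1
      · have e1 : b = true := g1
        have e2 : b' = false := g2
        have e3 : k' = k := g3
        have e4 : v' = v := g4
        subst e2 e3 e4
        exact h3 e1
    · show bt 292863 0 2 true
      decide
  · refine ⟨fun t p => cond t (bt 16484384 p.1 p.2.1 p.2.2) (bt 16763936 p.1 p.2.1 p.2.2),
      ?_, ?_, ?_⟩
    · rintro ⟨v, k, b⟩ h
      rcases r1 v k b h with ⟨h1, h2⟩ | ⟨k', h1, h2⟩ | ⟨h1, h2⟩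
      · exact ⟨(v, k, b), Or.inl ⟨⟨h1, h1⟩, rfl⟩, h2⟩
      · exact ⟨(v, k', b), Or.inr ⟨Or.inl ⟨h1, rfl⟩, rfl⟩, h2⟩
      · exact ⟨(v, k, false), Or.inr ⟨Or.inr ⟨⟨h1, rfl⟩, rfl⟩, rfl⟩, h2⟩
    · rintro ⟨v, k, b⟩ h ⟨v', k', b'⟩ hw
      obtain ⟨h1, h2⟩ := r2 v k b h
      rcases hw with ⟨g1, g3⟩ | ⟨⟨g1, g2⟩ | ⟨⟨g1, g2⟩, g3⟩, g4⟩
      · have e1 : v'.val = v.val + 1 := g1
        have e3 : k' = k := congrArg Prod.fst g3
        have e4 : b' = b := congrArg Prod.snd g3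
        subst e3 e4
        exact h1 v' e1
      · exact (g1 : False).elim
      · have e1 : @Eq Bool b true := g1
        have e2 : @Eq Bool b' true := g2
        have e3 : k' = k := g3
        have e4 : v' = v := g4
        have e5 : b' = b := e2.trans e1.symm
        subst e3 e4 e5
        exact h2 e1
    · show bt 16763936 0 2 true
      decide

end K1H58.FG
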